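import Mathlib

set_option autoImplicit false

namespace Pool.Agent.Results.MP_49fec2_al.ResidualRank

open Group

/-- The verbal subgroup `W(G)`: the subgroup generated by all values in `G` of the words in `W`. -/
def verbal (W : Set (FreeGroup ℕ)) (G : Type) [Group G] : Subgroup G :=
  Subgroup.closure {g : G | ∃ w ∈ W, ∃ f : ℕ → G, FreeGroup.lift f w = g}

/-- `G` belongs to the variety defined by the laws `w = 1`, `w ∈ W`. -/
def InVariety (W : Set (FreeGroup ℕ)) (G : Type) [Group G] : Prop :=
  ∀ w ∈ W, ∀ f : ℕ → G, FreeGroup.lift f w = 1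

theorem lift_comp {X G H : Type} [Group G] [Group H] (φ : G →* H) (f : X → G) (w : FreeGroup X) :
    φ (FreeGroup.lift f w) = FreeGroup.lift (fun i => φ (f i)) w := by
  have : φ.comp (FreeGroup.lift f) = FreeGroup.lift (fun i => φ (f i)) := by
    refine FreeGroup.ext_hom _ _ (fun i => ?_)
    rw [MonoidHom.comp_apply, FreeGroup.lift_apply_of, FreeGroup.lift_apply_of]
  rw [← this]; rfl

theorem verbal_map_le (W : Set (FreeGroup ℕ)) {G H : Type} [Group G] [Group H] (φ : G →* H) :
    (verbal W G).map φ ≤ verbal W H := by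
  rw [verbal, MonoidHom.map_closure, Subgroup.closure_le]
  rintro _ ⟨g, ⟨w, hw, f, rfl⟩, rfl⟩
  exact Subgroup.subset_closure ⟨w, hw, fun i => φ (f i), (lift_comp φ f w).symm⟩

instance verbal_normal (W : Set (FreeGroup ℕ)) (G : Type) [Group G] : (verbal W G).Normal := by
  constructor
  intro n hn g
  have h := verbal_map_le W (MulAut.conj g).toMonoidHom (Subgroup.mem_map_of_mem _ hn)
  exact h

theorem verbal_eq_bot_of_inVariety {W : Set (FreeGroup ℕ)} {G : Type} [Group G]
    (h : InVariety W G) : verbal W G = ⊥ := by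
  rw [eq_bot_iff, verbal, Subgroup.closure_le]
  rintro _ ⟨w, hw, f, rfl⟩
  exact h w hw f

theorem inVariety_quotient (W : Set (FreeGroup ℕ)) (G : Type) [Group G] :
    InVariety W (G ⧸ verbal W G) := by
  intro w hw f
  have hs : ∀ i, ∃ g : G, QuotientGroup.mk' (verbal W G) g = f i :=
    fun i => QuotientGroup.mk'_surjective _ (f i)
  choose g hg using hs
  have h1 : f = fun i => QuotientGroup.mk' (verbal W G) (g i) := funext fun i => (hg i).symm
  rw [h1, ← lift_comp]
  exact (QuotientGroup.eq_one_iff _).mpr (Subgroup.subset_closure ⟨w, hw, g, rfl⟩)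

/-- The relatively free group of rank `n` of the variety defined by the laws `W`. -/
abbrev RelFree (W : Set (FreeGroup ℕ)) (n : ℕ) : Type :=
  FreeGroup (Fin n) ⧸ verbal W (FreeGroup (Fin n))

/-- `G` generates the variety `V` defined by `W`: it lies in `V`, and every variety (given by some
set `W'` of laws) containing `G` contains `V`. -/
def Generates (W : Set (FreeGroup ℕ)) (G : Type) [Group G] : Prop :=
  InVariety W G ∧ ∀ W' : Set (FreeGroup ℕ), InVariety W' G →
    ∀ (H : Type) [Group H], InVariety W H → InVariety W' H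

/-- `G` is `k`-generator: it is generated by some set of at most `k` elements. -/
def KGen (k : ℕ) (G : Type) [Group G] : Prop :=
  ∃ S : Finset G, S.card ≤ k ∧ Subgroup.closure (S : Set G) = ⊤

/-- `G` is residually `k`-generator: every nontrivial element survives in a `k`-generator
quotient. -/
def ResidKGen (k : ℕ) (G : Type) [Group G] : Prop :=
  ∀ g : G, g ≠ 1 → ∃ (N : Subgroup G) (_ : N.Normal), g ∉ N ∧ KGen k (G ⧸ N)

theorem inVariety_of_injective {W : Set (FreeGroup ℕ)} {G H : Type} [Group G] [Group H]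
    (φ : G →* H) (hφ : Function.Injective φ) (h : InVariety W H) : InVariety W G := by
  intro w hw f
  apply hφ
  rw [lift_comp, h w hw, map_one]

theorem inVariety_of_surjective {W : Set (FreeGroup ℕ)} {G H : Type} [Group G] [Group H]
    (φ : G →* H) (hφ : Function.Surjective φ) (h : InVariety W G) : InVariety W H := by
  intro w hw f
  have hs : ∀ i, ∃ g : G, φ g = f i := fun i => hφ (f i)
  choose g hg using hs
  have h1 : f = fun i => φ (g i) := funext fun i => (hg i).symm
  rw [h1, ← lift_comp, h w hw, map_one]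

theorem kgen_of_surjective {k : ℕ} {G H : Type} [Group G] [Group H]
    (φ : G →* H) (hφ : Function.Surjective φ) (h : KGen k G) : KGen k H := by
  classical
  obtain ⟨S, hS, hS2⟩ := h
  refine ⟨S.image φ, Finset.card_image_le.trans hS, ?_⟩
  rw [Finset.coe_image, ← MonoidHom.map_closure, hS2]
  exact Subgroup.map_top_of_surjective φ hφ

/-- The homomorphism from a relatively free group given by images of generators. -/
def desc (W : Set (FreeGroup ℕ)) {n : ℕ} {G : Type} [Group G] (hG : InVariety W G)
    (f : Fin n → G) : RelFree W n →* G :=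
  QuotientGroup.lift _ (FreeGroup.lift f) (fun x hx => by
    have h3 := verbal_map_le W (FreeGroup.lift f) (Subgroup.mem_map_of_mem _ hx)
    rw [verbal_eq_bot_of_inVariety hG, Subgroup.mem_bot] at h3
    exact h3)

theorem desc_of (W : Set (FreeGroup ℕ)) {n : ℕ} {G : Type} [Group G] (hG : InVariety W G)
    (f : Fin n → G) (i : Fin n) : desc W hG f (QuotientGroup.mk' _ (FreeGroup.of i)) = f i := by
  change FreeGroup.lift f (FreeGroup.of i) = f i
  rw [FreeGroup.lift_apply_of]

theorem desc_surjective (W : Set (FreeGroup ℕ)) {n : ℕ} {G : Type} [Group G] (hG : InVariety W G)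
    (f : Fin n → G) (hf : Subgroup.closure (Set.range f) = ⊤) :
    Function.Surjective (desc W hG f) := by
  rw [← MonoidHom.range_eq_top, eq_top_iff, ← hf, Subgroup.closure_le]
  rintro _ ⟨i, rfl⟩
  exact ⟨_, desc_of W hG f i⟩

/-- The laws of a group. -/
def laws (Q : Type) [Group Q] : Set (FreeGroup ℕ) := {w | ∀ f : ℕ → Q, FreeGroup.lift f w = 1}

theorem inVariety_laws (Q : Type) [Group Q] : InVariety (laws Q) Q := fun _ hw f => hw f

theorem generates_laws (Q : Type) [Group Q] {k : ℕ} (f : Fin k → Q)
    (hf : Subgroup.closure (Set.range f) = ⊤) : Generates (laws Q) (RelFree (laws Q) k) := by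
  refine ⟨inVariety_quotient _ _, ?_⟩
  intro W' hW' H _ hH
  have h1 : InVariety W' Q :=
    inVariety_of_surjective (desc (laws Q) (inVariety_laws Q) f) (desc_surjective _ _ f hf) hW'
  intro w hw
  exact hH w (fun f => h1 w hw f)

theorem finite_relFree (Q : Type) [Group Q] [Finite Q] (n : ℕ) : Finite (RelFree (laws Q) n) := by
  let Φ : FreeGroup (Fin n) →* ((Fin n → Q) → Q) :=
    MonoidHom.mk' (fun w f => FreeGroup.lift f w) (fun a b => by funext f; simp)
  have hker : Φ.ker ≤ verbal (laws Q) (FreeGroup (Fin n)) := by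
    intro w hw
    have hw1 : ∀ f : Fin n → Q, FreeGroup.lift f w = 1 := fun f => congrFun hw f
    let F : ℕ → FreeGroup (Fin n) := fun i => if h : i < n then FreeGroup.of ⟨i, h⟩ else 1
    have h1 : FreeGroup.lift F (FreeGroup.map (fun i : Fin n => (i : ℕ)) w) = w := by
      have : (FreeGroup.lift F).comp (FreeGroup.map (fun i : Fin n => (i : ℕ))) =
          MonoidHom.id (FreeGroup (Fin n)) := by
        refine FreeGroup.ext_hom _ _ (fun i => ?_)
        rw [MonoidHom.comp_apply, FreeGroup.map.of, FreeGroup.lift_apply_of]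
        simp [F]
      exact DFunLike.congr_fun this w
    have h2 : FreeGroup.map (fun i : Fin n => (i : ℕ)) w ∈ laws Q := by
      intro g
      have : (FreeGroup.lift g).comp (FreeGroup.map (fun i : Fin n => (i : ℕ))) =
          FreeGroup.lift (fun i : Fin n => g i) := by
        refine FreeGroup.ext_hom _ _ (fun i => ?_)
        rw [MonoidHom.comp_apply, FreeGroup.map.of, FreeGroup.lift_apply_of,
          FreeGroup.lift_apply_of]
      have h3 := DFunLike.congr_fun this w
      rw [MonoidHom.comp_apply] at h3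
      rw [h3, hw1]
    exact Subgroup.subset_closure ⟨_, h2, F, h1⟩
  have h1 : Function.Injective (QuotientGroup.kerLift Φ) := QuotientGroup.kerLift_injective Φ
  have h2 : Finite (FreeGroup (Fin n) ⧸ Φ.ker) := Finite.of_injective _ h1
  let p : (FreeGroup (Fin n) ⧸ Φ.ker) → RelFree (laws Q) n :=
    QuotientGroup.map Φ.ker (verbal (laws Q) (FreeGroup (Fin n))) (MonoidHom.id _)
      (fun x hx => hker hx)
  refine Finite.of_surjective p ?_
  intro x
  obtain ⟨w, rfl⟩ := QuotientGroup.mk'_surjective _ x
  exact ⟨QuotientGroup.mk w, rfl⟩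

/-- The commutator of two nontrivial normal subgroups is nontrivial. -/
def PrimeGp (H : Type) [Group H] : Prop :=
  ∀ A B : Subgroup H, A.Normal → B.Normal → A ≠ ⊥ → B ≠ ⊥ → ⁅A, B⁆ ≠ ⊥

theorem not_residKGen {R H : Type} [Group R] [Group H] [Finite R] {k : ℕ} (h : R →* H)
    (hs : Function.Surjective h) (hH : PrimeGp H) (hk : ¬ KGen k H) : ¬ ResidKGen k R := by
  classical
  have hnt : (⊤ : Subgroup H) ≠ ⊥ := by
    intro h1
    exact hk ⟨∅, by simp, by rw [Finset.coe_empty, Subgroup.closure_empty, h1]⟩
  have key : ∀ s : Finset (Subgroup R), (∀ N ∈ s, ∃ (_ : N.Normal), KGen k (R ⧸ N)) →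
      ∃ T : Subgroup R, T.Normal ∧ T.map h ≠ ⊥ ∧ ∀ N ∈ s, T ≤ N := by
    intro s
    induction s using Finset.induction_on with
    | empty =>
      intro _
      refine ⟨⊤, inferInstance, ?_, fun N hN => absurd hN (Finset.notMem_empty N)⟩
      rw [Subgroup.map_top_of_surjective h hs]
      exact hnt
    | insert N s hN ih =>
      intro hall
      obtain ⟨T, hT1, hT2, hT3⟩ := ih (fun N hN => hall N (Finset.mem_insert_of_mem hN))
      obtain ⟨hNn, hNk⟩ := hall N (Finset.mem_insert_self N s)
      have hNmap : N.map h ≠ ⊥ := by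
        intro h0
        apply hk
        rw [Subgroup.map_eq_bot_iff] at h0
        refine kgen_of_surjective (QuotientGroup.lift N h (fun x hx => h0 hx)) ?_ hNk
        intro y
        obtain ⟨x, rfl⟩ := hs y
        exact ⟨QuotientGroup.mk x, rfl⟩
      refine ⟨⁅T, N⁆, inferInstance, ?_, ?_⟩
      · rw [Subgroup.map_commutator]
        exact hH _ _ (hT1.map h hs) (hNn.map h hs) hT2 hNmap
      · intro M hM
        rcases Finset.mem_insert.mp hM with rfl | hM
        · exact Subgroup.commutator_le_right _ _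
        · exact (Subgroup.commutator_le_left _ _).trans (hT3 M hM)
  have hfin : Finite (Subgroup R) := inferInstance
  have := Fintype.ofFinite (Subgroup R)
  obtain ⟨T, hT1, hT2, hT3⟩ := key
    (Finset.univ.filter (fun N : Subgroup R => ∃ (_ : N.Normal), KGen k (R ⧸ N)))
    (fun N hN => (Finset.mem_filter.mp hN).2)
  have h1 : ∃ g ∈ T, h g ≠ 1 := by
    by_contra hc
    push Not at hc
    apply hT2
    rw [Subgroup.map_eq_bot_iff]
    exact fun g hg => hc g hg
  obtain ⟨g, hg, hg1⟩ := h1
  intro hR
  obtain ⟨N, hN1, hN2, hN3⟩ := hR g (fun h0 => hg1 (by rw [h0, map_one]))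
  exact hN2 (hT3 N (Finset.mem_filter.mpr ⟨Finset.mem_univ _, hN1, hN3⟩) hg)


/-! ### The wreath product -/

section wreath

open RegularWreathProduct

variable {D E : Type} [Group D] [Group E] [DecidableEq E]

/-- The element of the base group supported at one place. -/
def dl (u : E) : D →* RegularWreathProduct D E where
  toFun a := ⟨Pi.mulSingle u a, 1⟩
  map_one' := by
    ext
    · simp
    · rfl
  map_mul' a b := by
    ext x
    · simp [Pi.mulSingle_mul]
    · simp

theorem dl_left (u : E) (a : D) : (dl u a).left = Pi.mulSingle u a := rfl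

theorem dl_right (u : E) (a : D) : (dl u a).right = 1 := rfl

theorem inl_conj_dl (e u : E) (a : D) :
    inl e * dl u a * (inl e)⁻¹ = dl (e * u) a := by
  ext x
  · simp only [RegularWreathProduct.mul_left, left_inl, right_inl, dl_left, dl_right,
      RegularWreathProduct.mul_right, RegularWreathProduct.inv_left, Pi.mul_apply, Pi.one_apply,
      Pi.inv_apply, inv_one, mul_one, one_mul]
    simp only [Pi.mulSingle_apply]
    congr 1
    rw [eq_iff_iff, inv_mul_eq_iff_eq_mul]
  · simp [dl_right]

/-- A base element commuted with an element supported at one place. -/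
theorem comm_dl (x : RegularWreathProduct D E) (hx : x.right = 1) (u : E) (c : D) :
    x * dl u c * x⁻¹ * (dl u c)⁻¹ = dl u (x.left u * c * (x.left u)⁻¹ * c⁻¹) := by
  ext y
  · by_cases h : y = u
    · subst h
      simp [dl_left, dl_right, hx]
    · simp [dl_left, dl_right, hx, h, Pi.mulSingle_apply]
  · simp [dl_right, hx]

theorem dl_injective (u : E) : Function.Injective (dl u : D →* RegularWreathProduct D E) := by
  intro a b h
  have h1 := congrFun (congrArg RegularWreathProduct.left h) u
  simpa [dl_left] using h1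

theorem comm_mem {G : Type} [Group G] (N : Subgroup G) (hN : N.Normal) (x y : G) (hx : x ∈ N) :
    x * y * x⁻¹ * y⁻¹ ∈ N := by
  have h := N.mul_mem hx (hN.conj_mem _ (N.inv_mem hx) y)
  have e : x * y * x⁻¹ * y⁻¹ = x * (y * x⁻¹ * y⁻¹) := by group
  rw [e]; exact h

/-- A nontrivial normal subgroup of the wreath product of a nonabelian simple group contains
a coordinate subgroup. -/
theorem dl_mem (hD : IsSimpleGroup D) (hc : ∀ a : D, a ≠ 1 → ∃ b, a * b * a⁻¹ * b⁻¹ ≠ 1)
    (N : Subgroup (RegularWreathProduct D E)) (hN : N.Normal) (hN1 : N ≠ ⊥) (a : D) :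
    dl (1 : E) a ∈ N := by
  -- a nontrivial element of `N` in the base
  have step1 : ∃ y ∈ N, y.right = 1 ∧ ∃ u, y.left u ≠ 1 := by
    obtain ⟨x, hxN, hx1⟩ := (Subgroup.bot_or_exists_ne_one N).resolve_left hN1
    by_cases hr : x.right = 1
    · refine ⟨x, hxN, hr, ?_⟩
      by_contra h
      push Not at h
      exact hx1 (RegularWreathProduct.ext (funext h) hr)
    · obtain ⟨b, hb⟩ := exists_ne (1 : D)
      refine ⟨_, comm_mem N hN x (dl 1 b) hxN, ?_, 1, ?_⟩
      · simp [dl_right]
      · simp only [RegularWreathProduct.mul_left, dl_left, dl_right,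
          RegularWreathProduct.mul_right, RegularWreathProduct.inv_left,
          RegularWreathProduct.inv_right, Pi.mul_apply, Pi.inv_apply, mul_one, inv_one, one_mul,
          mul_inv_cancel, mul_inv_cancel_left]
        rw [Pi.mulSingle_eq_same, Pi.mulSingle_eq_of_ne (by simpa using hr)]
        simpa using hb
  obtain ⟨y, hyN, hyr, u, hu⟩ := step1
  obtain ⟨c, hcc⟩ := hc _ hu
  have h2 := comm_mem N hN y (dl u c) hyN
  rw [comm_dl y hyr] at h2
  -- the elements whose coordinate copies lie in `N`
  have h3 : N.comap (dl u : D →* RegularWreathProduct D E) = ⊤ := by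
    rcases IsSimpleGroup.eq_bot_or_eq_top_of_normal (N.comap (dl u)) (hN.comap _) with h | h
    · exfalso
      have h4 : y.left u * c * (y.left u)⁻¹ * c⁻¹ ∈ N.comap (dl u : D →* _) := h2
      rw [h, Subgroup.mem_bot] at h4
      exact hcc h4
    · exact h
  have h4 : dl u a ∈ N := by
    have : a ∈ N.comap (dl u : D →* RegularWreathProduct D E) := by rw [h3]; trivial
    exact this
  have h5 := hN.conj_mem _ h4 (inl u⁻¹)
  rw [inl_conj_dl, inv_mul_cancel] at h5
  exact h5

theorem prime_wreath (hD : IsSimpleGroup D) (hc : ∀ a : D, a ≠ 1 → ∃ b, a * b * a⁻¹ * b⁻¹ ≠ 1) :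
    PrimeGp (RegularWreathProduct D E) := by
  intro A B hA hB hA1 hB1 h
  obtain ⟨a, ha⟩ := exists_ne (1 : D)
  obtain ⟨b, hb⟩ := hc a ha
  have h1 := dl_mem hD hc A hA hA1 a
  have h2 := dl_mem hD hc B hB hB1 b
  have h3 := Subgroup.commutator_mem_commutator h1 h2
  rw [h, Subgroup.mem_bot] at h3
  apply hb
  apply dl_injective (1 : E)
  rw [map_one, ← h3]
  simp [commutatorElement_def]

/-- The base group of the wreath product. -/
def base : (E → D) →* RegularWreathProduct D E where
  toFun b := ⟨b, 1⟩
  map_one' := rfl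
  map_mul' a b := by
    ext x
    · simp
    · simp

theorem dl_conj (z : RegularWreathProduct D E) (hz : z.right = 1) (u : E) (d : D) :
    z * dl u d * z⁻¹ = dl u (z.left u * d * (z.left u)⁻¹) := by
  ext y
  · by_cases h : y = u
    · subst h
      simp [dl_left, dl_right, hz]
    · simp [dl_left, dl_right, hz, h, Pi.mulSingle_apply]
  · simp [dl_right, hz]

theorem sq_eq (e : E) (he : e * e = 1) (a : D) :
    (dl 1 a * inl e) * (dl 1 a * inl e) = (dl 1 a * dl e a : RegularWreathProduct D E) := by
  have h1 : (inl e : RegularWreathProduct D E) * inl e = 1 := by rw [← map_mul, he, map_one]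
  have h2 := inl_conj_dl (D := D) e 1 a
  rw [mul_one] at h2
  rw [← h2]
  have h3 : (inl e : RegularWreathProduct D E)⁻¹ = inl e := inv_eq_of_mul_eq_one_left h1
  rw [h3]
  group

/-- A subgroup of the wreath product which contains suitable elements is everything. -/
theorem top_of_mem (hD : IsSimpleGroup D) [Finite E] (s t : D)
    (hst : Subgroup.closure {s, t} = (⊤ : Subgroup D))
    (hc : s * t * s⁻¹ * t⁻¹ ≠ 1) (e f : E) (he : e * e = 1) (hf : f * f = 1) (he1 : e ≠ 1)
    (hf1 : f ≠ 1) (hef : e ≠ f) (K : Subgroup (RegularWreathProduct D E))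
    (h1 : dl 1 s * inl e ∈ K) (h2 : dl 1 t * inl f ∈ K)
    (S : Set E) (hS : Subgroup.closure S = ⊤) (hS2 : ∀ x ∈ S, x ≠ e → x ≠ f → inl x ∈ K) :
    K = ⊤ := by
  have h1' : (dl 1 s * dl e s : RegularWreathProduct D E) ∈ K := by
    rw [← sq_eq e he]; exact K.mul_mem h1 h1
  have h2' : (dl 1 t * dl f t : RegularWreathProduct D E) ∈ K := by
    rw [← sq_eq f hf]; exact K.mul_mem h2 h2
  have hr1 : (dl 1 s * dl e s : RegularWreathProduct D E).right = 1 := by simp [dl_right]
  have hr2 : (dl 1 t * dl f t : RegularWreathProduct D E).right = 1 := by simp [dl_right]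
  have hl1 : (dl 1 s * dl e s : RegularWreathProduct D E).left 1 = s := by
    simp only [RegularWreathProduct.mul_left, dl_left, dl_right, inv_one, one_mul, Pi.mul_apply]
    rw [Pi.mulSingle_eq_same, Pi.mulSingle_eq_of_ne he1.symm, mul_one]
  have hl2 : (dl 1 t * dl f t : RegularWreathProduct D E).left 1 = t := by
    simp only [RegularWreathProduct.mul_left, dl_left, dl_right, inv_one, one_mul, Pi.mul_apply]
    rw [Pi.mulSingle_eq_same, Pi.mulSingle_eq_of_ne hf1.symm, mul_one]
  -- the commutator of the two squares has support in one place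
  have hcm : (dl 1 (s * t * s⁻¹ * t⁻¹) : RegularWreathProduct D E) ∈ K := by
    have h3 := K.mul_mem (K.mul_mem (K.mul_mem h1' h2') (K.inv_mem h1')) (K.inv_mem h2')
    have h4 : (dl 1 (s * t * s⁻¹ * t⁻¹) : RegularWreathProduct D E) =
        (dl 1 s * dl e s) * (dl 1 t * dl f t) * (dl 1 s * dl e s)⁻¹ * (dl 1 t * dl f t)⁻¹ := by
      ext y
      · simp only [RegularWreathProduct.mul_left, RegularWreathProduct.mul_right,
          RegularWreathProduct.inv_left, RegularWreathProduct.inv_right, dl_left, dl_right,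
          inv_one, one_mul, mul_one, Pi.mul_apply, Pi.inv_apply, Pi.mulSingle_apply]
        by_cases hy1 : y = 1
        · subst hy1
          simp [he1.symm, hf1.symm]
        · by_cases hy2 : y = e
          · subst hy2
            simp [hy1, hef]
          · simp [hy1, hy2]
      · simp [dl_right]
    rw [h4]
    exact h3
  let P : Subgroup D := K.comap (dl (1 : E))
  have hPn : P.Normal := by
    rw [← Subgroup.normalizer_eq_top_iff, eq_top_iff, ← hst, Subgroup.closure_le]
    have key : ∀ z ∈ K, z.right = 1 → z.left 1 ∈ Subgroup.normalizer (P : Set D) := by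
      intro z hz hzr
      rw [Subgroup.mem_normalizer_iff]
      intro d
      change dl (1 : E) d ∈ K ↔ dl (1 : E) (z.left 1 * d * (z.left 1)⁻¹) ∈ K
      rw [← dl_conj z hzr]
      constructor
      · intro h
        exact K.mul_mem (K.mul_mem hz h) (K.inv_mem hz)
      · intro h
        have h5 := K.mul_mem (K.mul_mem (K.inv_mem hz) h) hz
        have h6 : z⁻¹ * (z * dl 1 d * z⁻¹) * z = dl 1 d := by group
        rwa [h6] at h5
    rintro x (rfl | rfl)
    · have := key _ h1' hr1
      rwa [hl1] at this
    · have := key _ h2' hr2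
      rwa [hl2] at this
  have hP : P = ⊤ := by
    rcases IsSimpleGroup.eq_bot_or_eq_top_of_normal P hPn with h | h
    · exfalso
      have h4 : s * t * s⁻¹ * t⁻¹ ∈ P := hcm
      rw [h, Subgroup.mem_bot] at h4
      exact hc h4
    · exact h
  have hdl1 : ∀ d : D, (dl 1 d : RegularWreathProduct D E) ∈ K := by
    intro d
    have : d ∈ P := by rw [hP]; trivial
    exact this
  have hinl : ∀ x : E, (inl x : RegularWreathProduct D E) ∈ K := by
    have h3 : K.comap (inl : E →* RegularWreathProduct D E) = ⊤ := by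
      rw [eq_top_iff, ← hS, Subgroup.closure_le]
      intro x hx
      by_cases hxe : x = e
      · subst hxe
        have := K.mul_mem (K.inv_mem (hdl1 s)) h1
        rwa [inv_mul_cancel_left] at this
      · by_cases hxf : x = f
        · subst hxf
          have := K.mul_mem (K.inv_mem (hdl1 t)) h2
          rwa [inv_mul_cancel_left] at this
        · exact hS2 x hx hxe hxf
    intro x
    have : x ∈ K.comap (inl : E →* RegularWreathProduct D E) := by rw [h3]; trivial
    exact this
  have hdl : ∀ (u : E) (d : D), (dl u d : RegularWreathProduct D E) ∈ K := by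
    intro u d
    have := inl_conj_dl (D := D) u 1 d
    rw [mul_one] at this
    rw [← this]
    exact K.mul_mem (K.mul_mem (hinl u) (hdl1 d)) (K.inv_mem (hinl u))
  have hbase : ∀ b : E → D, (base b : RegularWreathProduct D E) ∈ K := by
    intro b
    have : b ∈ K.comap (base : (E → D) →* RegularWreathProduct D E) :=
      Subgroup.pi_mem_of_mulSingle_mem b (fun i => hdl i (b i))
    exact this
  rw [eq_top_iff]
  intro x _
  have hx : x = base x.left * inl x.right := by
    ext y
    · simp [base]
    · simp [base]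
  rw [hx]
  exact K.mul_mem (hbase _) (hinl _)

end wreath

/-! ### The concrete groups -/

/-- The elementary abelian 2-group of rank `r`. -/
abbrev EE (r : ℕ) : Type := Multiplicative (Fin r → ZMod 2)

/-- The alternating group of degree five. -/
abbrev A5 : Type := alternatingGroup (Fin 5)

theorem not_kgen_EE (k : ℕ) : ¬ KGen k (EE (k + 1)) := by
  rintro ⟨S, hS, hS2⟩
  let S' : Finset (Fin (k + 1) → ZMod 2) :=
    S.image (fun x : EE (k + 1) => (Multiplicative.toAdd x : Fin (k + 1) → ZMod 2))
  have h1 : Submodule.span (ZMod 2) (S' : Set (Fin (k + 1) → ZMod 2)) = ⊤ := by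
    rw [eq_top_iff]
    intro v _
    let L : Subgroup (EE (k + 1)) :=
      AddSubgroup.toSubgroup
        (Submodule.span (ZMod 2) (S' : Set (Fin (k + 1) → ZMod 2))).toAddSubgroup
    have h2 : Subgroup.closure (S : Set (EE (k + 1))) ≤ L := by
      rw [Subgroup.closure_le]
      intro x hx
      have h3 : (Multiplicative.toAdd x : Fin (k + 1) → ZMod 2) ∈ S' :=
        Finset.mem_image_of_mem _ hx
      have h4 : (Multiplicative.toAdd x : Fin (k + 1) → ZMod 2) ∈
          Submodule.span (ZMod 2) (S' : Set (Fin (k + 1) → ZMod 2)) :=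
        Submodule.subset_span h3
      exact h4
    rw [hS2] at h2
    exact h2 (Subgroup.mem_top (Multiplicative.ofAdd v))
  have h2 := finrank_span_finset_le_card (R := ZMod 2) S'
  rw [Set.finrank, h1, finrank_top, Module.finrank_fin_fun] at h2
  have h3 : S'.card ≤ S.card := Finset.card_image_le
  omega

/-- The standard generators. -/
def ei (r : ℕ) (i : Fin r) : EE r := Multiplicative.ofAdd (Pi.single i 1)

theorem closure_ei (r : ℕ) : Subgroup.closure (Set.range (ei r)) = ⊤ := by
  rw [eq_top_iff]
  intro v _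
  have h : v = ∏ i, (Multiplicative.ofAdd (Pi.single i ((Multiplicative.toAdd v : Fin r → ZMod 2) i)) : EE r) := by
    rw [← ofAdd_sum, Finset.univ_sum_single]
    rfl
  rw [h]
  refine Subgroup.prod_mem _ (fun i _ => ?_)
  have h2 : ∀ z : ZMod 2, z = 0 ∨ z = 1 := by decide
  rcases h2 ((Multiplicative.toAdd v : Fin r → ZMod 2) i) with h3 | h3
  · rw [h3, Pi.single_zero, ofAdd_zero]
    exact Subgroup.one_mem _
  · rw [h3]
    exact Subgroup.subset_closure ⟨i, rfl⟩

theorem ei_sq (r : ℕ) (i : Fin r) : ei r i * ei r i = 1 := by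
  unfold ei
  rw [← ofAdd_add, ← Pi.single_add]
  have : (1 : ZMod 2) + 1 = 0 := by decide
  rw [this, Pi.single_zero, ofAdd_zero]

theorem ei_ne_one (r : ℕ) (i : Fin r) : ei r i ≠ 1 := by
  intro h
  have h1 : (Pi.single i 1 : Fin r → ZMod 2) = 0 := h
  have h2 := congrFun h1 i
  rw [Pi.single_eq_same] at h2
  exact one_ne_zero h2

theorem ei_injective (r : ℕ) : Function.Injective (ei r) := by
  intro i j h
  by_contra hij
  have h1 : (Pi.single i 1 : Fin r → ZMod 2) = Pi.single j 1 := h
  have h2 := congrFun h1 i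
  rw [Pi.single_eq_same, Pi.single_eq_of_ne hij] at h2
  exact one_ne_zero h2

/-- A double transposition. -/
def s0 : A5 := ⟨Equiv.swap 0 1 * Equiv.swap 2 3, by
  rw [Equiv.Perm.mem_alternatingGroup]; decide⟩

/-- A 3-cycle. -/
def s1 : A5 := ⟨Equiv.swap 0 2 * Equiv.swap 2 4, by
  rw [Equiv.Perm.mem_alternatingGroup]; decide⟩

theorem s_comm : s0 * s1 * s0⁻¹ * s1⁻¹ ≠ 1 := by decide

theorem a5_simple : IsSimpleGroup A5 := alternatingGroup.isSimpleGroup (by simp)

theorem a5_center (a : A5) (ha : a ≠ 1) : ∃ b, a * b * a⁻¹ * b⁻¹ ≠ 1 := by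
  by_contra h
  push Not at h
  have h1 : a ∈ Subgroup.center A5 := by
    rw [Subgroup.mem_center_iff]
    intro b
    have := h b
    rw [mul_inv_eq_one, mul_inv_eq_iff_eq_mul] at this
    exact this.symm
  rw [alternatingGroup.center_eq_bot (by simp), Subgroup.mem_bot] at h1
  exact ha h1

theorem closure_s : Subgroup.closure {s0, s1} = (⊤ : Subgroup A5) := by
  have hs0 : s0 ∈ Subgroup.closure {s0, s1} := Subgroup.subset_closure (by simp)
  have hs1 : s1 ∈ Subgroup.closure {s0, s1} := Subgroup.subset_closure (by simp)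
  have h2 : orderOf s0 = 2 := orderOf_eq_prime (by decide) (by decide)
  have h3 : orderOf s1 = 3 := orderOf_eq_prime (by decide) (by decide)
  have : Fact (Nat.Prime 5) := ⟨by norm_num⟩
  have h5 : orderOf (s0 * s1) = 5 := orderOf_eq_prime (by decide) (by decide)
  have d2 := Subgroup.orderOf_dvd_natCard _ hs0
  have d3 := Subgroup.orderOf_dvd_natCard _ hs1
  have d5 := Subgroup.orderOf_dvd_natCard _ (Subgroup.mul_mem _ hs0 hs1)
  rw [h2] at d2
  rw [h3] at d3
  rw [h5] at d5
  have hcard : Nat.card A5 = 60 := by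
    have h : 2 * Nat.card A5 = Nat.card (Equiv.Perm (Fin 5)) :=
      two_mul_nat_card_alternatingGroup (α := Fin 5)
    rw [Nat.card_perm, Nat.card_fin, show Nat.factorial 5 = 120 by rfl] at h
    omega
  have h6 := Subgroup.card_mul_index (Subgroup.closure {s0, s1})
  rw [hcard] at h6
  have d30 : 30 ∣ Nat.card (Subgroup.closure {s0, s1}) := by omega
  obtain ⟨c, hc⟩ := d30
  rw [hc] at h6
  have h7 : c * (Subgroup.closure {s0, s1}).index = 2 := by
    have : 30 * (c * (Subgroup.closure {s0, s1}).index) = 30 * 2 := by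
      rw [← mul_assoc, h6]
    exact Nat.eq_of_mul_eq_mul_left (by norm_num) this
  have h8 : (Subgroup.closure {s0, s1}).index ∣ 2 := ⟨c, by rw [mul_comm, h7]⟩
  rcases (Nat.dvd_prime Nat.prime_two).mp h8 with h9 | h9
  · exact Subgroup.index_eq_one.mp h9
  · have hn := Subgroup.normal_of_index_eq_two h9
    have := a5_simple
    rcases IsSimpleGroup.eq_bot_or_eq_top_of_normal _ hn with h10 | h10
    · exfalso
      rw [h10, Subgroup.mem_bot] at hs0
      exact absurd hs0 (by decide)
    · exact h10

/-- The wreath product used in the construction. -/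
abbrev HH (k : ℕ) : Type := RegularWreathProduct A5 (EE (k + 1))

theorem not_kgen_HH (k : ℕ) : ¬ KGen k (HH k) := by
  intro h
  exact not_kgen_EE k (kgen_of_surjective (RegularWreathProduct.rightHom : HH k →* EE (k + 1))
    (fun x => ⟨RegularWreathProduct.inl x, rfl⟩) h)

theorem prime_HH (k : ℕ) : PrimeGp (HH k) := by
  classical
  exact prime_wreath a5_simple a5_center

theorem gen_HH (k n : ℕ) (hk : 1 ≤ k) (hn : k < n) :
    ∃ f : Fin n → HH k, Subgroup.closure (Set.range f) = ⊤ := by
  classical
  let c : ℕ → A5 := fun i => if i = 0 then s0 else if i = 1 then s1 else 1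
  let g : Fin (k + 1) → HH k := fun i => dl 1 (c i) * RegularWreathProduct.inl (ei (k + 1) i)
  let f : Fin n → HH k := fun i => if h : (i : ℕ) < k + 1 then g ⟨i, h⟩ else 1
  refine ⟨f, ?_⟩
  have hg : ∀ i, g i ∈ Subgroup.closure (Set.range f) := by
    intro i
    apply Subgroup.subset_closure
    refine ⟨⟨i, by omega⟩, ?_⟩
    change (if h : (i : ℕ) < k + 1 then g ⟨i, h⟩ else 1) = g i
    rw [dif_pos i.2]
  have h01 : (⟨0, by omega⟩ : Fin (k + 1)) ≠ ⟨1, by omega⟩ := by simp
  refine top_of_mem a5_simple s0 s1 closure_s s_comm (ei (k + 1) ⟨0, by omega⟩)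
    (ei (k + 1) ⟨1, by omega⟩) (ei_sq _ _) (ei_sq _ _) (ei_ne_one _ _) (ei_ne_one _ _)
    (fun h => h01 (ei_injective _ h)) _ (hg ⟨0, by omega⟩) (hg ⟨1, by omega⟩)
    (Set.range (ei (k + 1))) (closure_ei _) ?_
  rintro _ ⟨i, rfl⟩ h0 h1
  have hi0 : (i : ℕ) ≠ 0 := by
    intro h
    apply h0
    congr 1
    exact Fin.ext h
  have hi1 : (i : ℕ) ≠ 1 := by
    intro h
    apply h1
    congr 1
    exact Fin.ext h
  have h2 := hg i
  have h3 : c i = 1 := by
    change (if (i : ℕ) = 0 then s0 else if (i : ℕ) = 1 then s1 else 1) = 1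
    rw [if_neg hi0, if_neg hi1]
  have h4 : g i = RegularWreathProduct.inl (ei (k + 1) i) := by
    change dl 1 (c i) * RegularWreathProduct.inl (ei (k + 1) i) = _
    rw [h3, map_one, one_mul]
  rw [h4] at h2
  exact h2

theorem gen_perm (m k : ℕ) (hk : 2 ≤ k) :
    ∃ f : Fin k → Equiv.Perm (Fin (m + 2)), Subgroup.closure (Set.range f) = ⊤ := by
  let f : Fin k → Equiv.Perm (Fin (m + 2)) := fun i =>
    if (i : ℕ) = 0 then finRotate (m + 2) else
      if (i : ℕ) = 1 then Equiv.swap 0 (finRotate (m + 2) 0) else 1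
  refine ⟨f, ?_⟩
  rw [eq_top_iff, ← Equiv.Perm.closure_cycle_adjacent_swap (isCycle_finRotate (n := m))
    support_finRotate 0, Subgroup.closure_le]
  rintro x (rfl | rfl)
  · exact Subgroup.subset_closure ⟨⟨0, by omega⟩, by simp [f]⟩
  · exact Subgroup.subset_closure ⟨⟨1, by omega⟩, by simp [f]⟩

theorem embed_HH (k : ℕ) : ∃ (m : ℕ) (φ : HH k →* Equiv.Perm (Fin (m + 2))),
    Function.Injective φ := by
  have hfin : Finite (HH k) := inferInstance
  have hnt : Nontrivial (HH k) := by
    by_contra h
    rw [not_nontrivial_iff_subsingleton] at h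
    exact not_kgen_HH k ⟨∅, by simp, Subsingleton.elim _ _⟩
  have h1 : 1 < Nat.card (HH k) := Finite.one_lt_card
  obtain ⟨m, hm⟩ : ∃ m, Nat.card (HH k) = m + 2 := ⟨Nat.card (HH k) - 2, by omega⟩
  let e : HH k ≃ Fin (m + 2) := Finite.equivFinOfCardEq hm
  refine ⟨m, (Equiv.permCongrHom e).toMonoidHom.comp (MulAction.toPermHom (HH k) (HH k)), ?_⟩
  rw [MonoidHom.coe_comp]
  exact (Equiv.permCongrHom e).injective.comp MulAction.toPerm_injective

/-! ### Ranks zero and one -/

theorem kgen_relFree (W : Set (FreeGroup ℕ)) (n : ℕ) : KGen n (RelFree W n) := by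
  classical
  refine kgen_of_surjective (QuotientGroup.mk' _) (QuotientGroup.mk'_surjective _) ?_
  refine ⟨Finset.univ.image FreeGroup.of, Finset.card_image_le.trans (by simp), ?_⟩
  rw [Finset.coe_image, Finset.coe_univ, Set.image_univ]
  exact FreeGroup.closure_range_of (Fin n)

theorem resid_zero (W : Set (FreeGroup ℕ)) (n : ℕ) (h : Generates W (RelFree W 0)) :
    ResidKGen 0 (RelFree W n) := by
  intro g hg
  exfalso
  have h1 : InVariety Set.univ (RelFree W 0) := by
    intro w _ f
    have : Subsingleton (RelFree W 0) := by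
      refine ⟨fun a b => ?_⟩
      obtain ⟨a, rfl⟩ := QuotientGroup.mk'_surjective _ a
      obtain ⟨b, rfl⟩ := QuotientGroup.mk'_surjective _ b
      rw [Subsingleton.elim a b]
    exact Subsingleton.elim _ _
  have h2 := h.2 Set.univ h1 (RelFree W n) (inVariety_quotient W _) (FreeGroup.of 0) trivial
    (fun _ => g)
  rw [FreeGroup.lift_apply_of] at h2
  exact hg h2

theorem comm_relFree_one (W : Set (FreeGroup ℕ)) (a b : RelFree W 1) : a * b = b * a := by
  obtain ⟨a, rfl⟩ := QuotientGroup.mk'_surjective _ a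
  obtain ⟨b, rfl⟩ := QuotientGroup.mk'_surjective _ b
  rw [← map_mul, ← map_mul]
  congr 1
  apply (FreeGroup.mulEquivIntOfUnique (α := Fin 1)).injective
  rw [map_mul, map_mul, mul_comm]

theorem resid_one (W : Set (FreeGroup ℕ)) (n : ℕ) (h : Generates W (RelFree W 1)) :
    ResidKGen 1 (RelFree W n) := by
  have hcomm : ∀ a b : RelFree W n, a * b = b * a := by
    intro a b
    have h1 : InVariety {FreeGroup.of 0 * FreeGroup.of 1 * (FreeGroup.of 0)⁻¹ *
        (FreeGroup.of 1)⁻¹} (RelFree W 1) := by
      rintro _ rfl f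
      simp only [map_mul, map_inv, FreeGroup.lift_apply_of]
      rw [comm_relFree_one W (f 0) (f 1)]
      group
    have h2 := h.2 _ h1 (RelFree W n) (inVariety_quotient W _) _ rfl
      (fun i => if i = 0 then a else b)
    simp only [map_mul, map_inv, FreeGroup.lift_apply_of] at h2
    simp only [if_true, one_ne_zero, if_false] at h2
    rw [mul_inv_eq_one, mul_inv_eq_iff_eq_mul] at h2
    exact h2
  let _ : CommGroup (RelFree W n) := { (inferInstance : Group (RelFree W n)) with
    mul_comm := hcomm }
  intro g hg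
  let x : RelFree W 1 := QuotientGroup.mk' _ (FreeGroup.of 0)
  let φ : Fin n → (RelFree W n →* RelFree W 1) := fun i =>
    desc W (inVariety_quotient W _) (fun j => if j = i then x else 1)
  let ι : Fin n → (RelFree W 1 →* RelFree W n) := fun i =>
    desc W (inVariety_quotient W _) (fun _ => QuotientGroup.mk' _ (FreeGroup.of i))
  have h3 : ∀ y : RelFree W n, ∏ i, ι i (φ i y) = y := by
    intro y
    obtain ⟨w, rfl⟩ := QuotientGroup.mk'_surjective _ y
    have h4 : (∏ i, (ι i).comp ((φ i).comp (QuotientGroup.mk' _))) =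
        (QuotientGroup.mk' (verbal W (FreeGroup (Fin n)))) := by
      refine FreeGroup.ext_hom _ _ (fun j => ?_)
      rw [MonoidHom.finsetProd_apply, Finset.prod_eq_single j]
      · change ι j (φ j (QuotientGroup.mk' _ (FreeGroup.of j))) = _
        rw [desc_of, if_pos rfl]
        exact desc_of W _ _ _
      · intro i _ hij
        change ι i (φ i (QuotientGroup.mk' _ (FreeGroup.of j))) = _
        rw [desc_of, if_neg (Ne.symm hij), map_one]
      · intro h
        exact absurd (Finset.mem_univ j) h
    have h5 := DFunLike.congr_fun h4 w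
    rw [MonoidHom.finsetProd_apply] at h5
    exact h5
  have h6 : ∃ i, φ i g ≠ 1 := by
    by_contra hc
    push Not at hc
    apply hg
    rw [← h3 g]
    exact Finset.prod_eq_one (fun i _ => by rw [hc i, map_one])
  obtain ⟨i, hi⟩ := h6
  have hsurj : Function.Surjective (φ i) := by
    intro y
    obtain ⟨w, rfl⟩ := QuotientGroup.mk'_surjective _ y
    refine ⟨ι i (QuotientGroup.mk' _ w), ?_⟩
    have h7 : ((φ i).comp ((ι i).comp (QuotientGroup.mk' _))) =
        (QuotientGroup.mk' (verbal W (FreeGroup (Fin 1)))) := by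
      refine FreeGroup.ext_hom _ _ (fun j => ?_)
      change φ i (ι i (QuotientGroup.mk' _ (FreeGroup.of j))) = _
      rw [desc_of, desc_of, if_pos rfl, Subsingleton.elim j 0]
    exact DFunLike.congr_fun h7 w
  refine ⟨(φ i).ker, inferInstance, hi, ?_⟩
  exact kgen_of_surjective (QuotientGroup.quotientKerEquivOfSurjective (φ i) hsurj).symm.toMonoidHom
    (QuotientGroup.quotientKerEquivOfSurjective (φ i) hsurj).symm.surjective (kgen_relFree W 1)

/-- **Main theorem.** For every `k ≥ 2` there is a variety `V` (given by a set `W` of laws) such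
that `F_k(V)` generates `V` but `F_n(V)` is residually `k`-generator for no `n > k`. For `k ≤ 1` and
every variety `V` generated by `F_k(V)`, all `F_n(V)` are residually `k`-generator. -/
theorem result :
    (∀ k : ℕ, 2 ≤ k → ∃ W : Set (FreeGroup ℕ), Generates W (RelFree W k) ∧
      ∀ n : ℕ, k < n → ¬ ResidKGen k (RelFree W n)) ∧
    (∀ k : ℕ, k ≤ 1 → ∀ (W : Set (FreeGroup ℕ)) (n : ℕ), Generates W (RelFree W k) →
      ResidKGen k (RelFree W n)) := by
  constructor
  · intro k hk
    obtain ⟨m, φ, hφ⟩ := embed_HH k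
    obtain ⟨f, hf⟩ := gen_perm m k hk
    refine ⟨laws (Equiv.Perm (Fin (m + 2))), generates_laws _ f hf, ?_⟩
    intro n hn
    obtain ⟨g, hg⟩ := gen_HH k n (by omega) hn
    have hH : InVariety (laws (Equiv.Perm (Fin (m + 2)))) (HH k) :=
      inVariety_of_injective φ hφ (inVariety_laws _)
    have hfin : Finite (RelFree (laws (Equiv.Perm (Fin (m + 2)))) n) := finite_relFree _ n
    exact not_residKGen (desc _ hH g) (desc_surjective _ hH g hg) (prime_HH k) (not_kgen_HH k)
  · intro k hk W n h
    interval_cases k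
    · exact resid_zero W n h
    · exact resid_one W n h

end Pool.Agent.Results.MP_49fec2_al.ResidualRank
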